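import Pool.Agent.helper19.QP.SpecM
import Pool.Agent.helper96.QP.YIN

/-! Row YI2 of project QP (MP_ebc808_nt). -/

set_option autoImplicit false

open Polynomial Pool.Agent.helper7.IG

noncomputable section

namespace Pool.Agent.QP

lemma YI2_sum (G : Polynomial (Polynomial kk)) (p p' x y : LL) (a b : ℕ) (ha : G.natDegree ≤ a)
    (hb : ∀ i, (G.coeff i).natDegree ≤ b) :
    p ^ a * p' ^ b * ev2 G x y = ∑ i ∈ Finset.range (a + 1), ∑ j ∈ Finset.range (b + 1),
      algebraMap kk LL ((G.coeff i).coeff j) * (((p * x) ^ i * p ^ (a - i)) * ((p' * y) ^ j * p' ^ (b - j))) := by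
  unfold ev2
  rw [Polynomial.eval₂_eq_sum_range' _ (Nat.lt_succ_of_le ha), Finset.mul_sum]
  refine Finset.sum_congr rfl fun i hi => ?_
  have hi' : i ≤ a := Nat.lt_succ_iff.1 (Finset.mem_range.1 hi)
  have e1 : p ^ a = p ^ i * p ^ (a - i) := by
    rw [← pow_add]
    congr 1
    omega
  have e2 : (aeval (R := kk) y).toRingHom (G.coeff i) =
      ∑ j ∈ Finset.range (b + 1), algebraMap kk LL ((G.coeff i).coeff j) * y ^ j := by
    have e3 : (aeval (R := kk) y).toRingHom (G.coeff i) = aeval y (G.coeff i) := rfl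
    rw [e3, Polynomial.aeval_eq_sum_range' (Nat.lt_succ_of_le (hb i))]
    refine Finset.sum_congr rfl fun j _ => ?_
    rw [Algebra.smul_def]
  rw [e2, Finset.sum_mul, Finset.mul_sum]
  refine Finset.sum_congr rfl fun j hj => ?_
  have hj' : j ≤ b := Nat.lt_succ_iff.1 (Finset.mem_range.1 hj)
  have e4 : p' ^ b = p' ^ j * p' ^ (b - j) := by
    rw [← pow_add]
    congr 1
    omega
  rw [e1, e4, mul_pow, mul_pow]
  ring

theorem YI2 (hTLI : TLI_stmt) (hPNI : PNI_stmt) (hPNB : PNB_stmt) : YI2_stmt := by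
  intro F Q G M a b l B hDen hl hl2 hBodd hlB ha hb
  have hB : B ≠ 0 := by
    rintro rfl
    simp at hBodd
  have h3B : 3 * B ≠ 0 := by omega
  have hnb : Nb 3 (B, 1) (3 * B, 1) := Or.inl ⟨rfl, (one_pow 3).symm⟩
  obtain ⟨i1, i2, i3⟩ := hTLI F Q M l B hDen hl hl2 hBodd hlB
  obtain ⟨j1, j2, j3⟩ := hTLI F Q M l (3 * B) hDen hl hl2 ((by decide : Odd 3).mul hBodd) (hlB.mul_left 3)
  have hD3 : IsIntegral (Algebra.adjoin kk {sig B 1 DDk}) (sig (3 * B) 1 DDk) :=
    hPNI 3 (B, 1) (3 * B, 1) Nat.prime_three (by norm_num) hB h3B hnb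
  have j1' := YIN_trans _ _ (YIN_adj _ _ hD3) _ j1
  have j2' := YIN_trans _ _ (YIN_adj _ _ hD3) _ j2
  have hY : Y2 F Q G a b l B = ∑ i ∈ Finset.range (a + 1), ∑ j ∈ Finset.range (b + 1),
      algebraMap kk LL ((G.coeff i).coeff j) * (((PI0 Q l B * TL l B F) ^ i * PI0 Q l B ^ (a - i)) *
        ((PI0 Q l (3 * B) * TL l (3 * B) F) ^ j * PI0 Q l (3 * B) ^ (b - j))) :=
    YI2_sum G _ _ _ _ a b ha hb
  refine ⟨?_, (i2.pow a).mul (j2'.pow b), ?_⟩
  · rw [hY]
    refine IsIntegral.sum _ fun i _ => IsIntegral.sum _ fun j _ => ?_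
    have hc : IsIntegral (Algebra.adjoin kk {sig B 1 DDk}) (algebraMap kk LL ((G.coeff i).coeff j)) :=
      isIntegral_algebraMap (R := (Algebra.adjoin kk {sig B 1 DDk} : Subalgebra kk LL)) (A := LL)
        (x := ⟨_, Subalgebra.algebraMap_mem _ ((G.coeff i).coeff j)⟩)
    exact hc.mul (((i1.pow i).mul (i2.pow (a - i))).mul ((j1'.pow j).mul (j2'.pow (b - j))))
  · intro V hV hnV
    obtain ⟨g, hg⟩ : ∃ g : V.ValueGroup, g = V.valuation (sig B 1 DDk) := ⟨_, rfl⟩
    have hg1 : 1 < g := by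
      by_contra hcon
      rw [hg] at hcon
      exact hnV ((V.valuation_le_one_iff _).1 (not_lt.1 hcon))
    have hv3 : V.valuation (sig (3 * B) 1 DDk) ≤ g := by
      have h1 := hPNB V hV 3 (B, 1) (3 * B, 1) Nat.prime_three (by norm_num) hB h3B hnb
      rw [hg]
      exact h1.trans (max_le le_rfl (by rw [← hg]; exact hg1.le))
    obtain ⟨p1, p2⟩ := i3 V g hV hg1.le hg.ge
    obtain ⟨q1, q2⟩ := j3 V g hV hg1.le hv3
    rw [← hg, hY]
    obtain ⟨H, hH⟩ : ∃ H : V.ValueGroup, H = g ^ (M * (l + 2)) := ⟨_, rfl⟩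
    rw [← hH] at p1 p2 q1 q2
    have e : g ^ ((a + b) * (M * (l + 2))) = H ^ (a + b) := by
      rw [hH, ← pow_mul, mul_comm]
    rw [e]
    refine V.valuation.map_sum_le fun i hi => V.valuation.map_sum_le fun j hj => ?_
    have hi' : i ≤ a := Nat.lt_succ_iff.1 (Finset.mem_range.1 hi)
    have hj' : j ≤ b := Nat.lt_succ_iff.1 (Finset.mem_range.1 hj)
    have hc : V.valuation (algebraMap kk LL ((G.coeff i).coeff j)) ≤ 1 :=
      (V.valuation_le_one_iff _).2 (hV _)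
    have ep : H ^ (a + b) = 1 * ((H ^ i * H ^ (a - i)) * (H ^ j * H ^ (b - j))) := by
      rw [← pow_add, ← pow_add, ← pow_add, one_mul]
      congr 1
      omega
    rw [ep, map_mul, map_mul, map_mul, map_mul, map_pow, map_pow, map_pow, map_pow]
    exact mul_le_mul' hc (mul_le_mul' (mul_le_mul' (pow_le_pow_left' p1 i) (pow_le_pow_left' p2 (a - i)))
      (mul_le_mul' (pow_le_pow_left' q1 j) (pow_le_pow_left' q2 (b - j))))

end Pool.Agent.QP
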