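import Pool.Agent.helper19.QP.SpecV

/-!
# Project qp (MP_ebc808_nt), row HCB: the values of all conjugates
-/

set_option autoImplicit false

open Finset

noncomputable section

namespace Pool.Agent.QP

open Pool.Agent.helper7.IG (kk LL sig DDk MM im2 ps Vx Nb Frame)
open Pool.Agent.LQ (FF DD)

theorem HCB_up (hPNB : PNB_stmt) (V : ValuationSubring LL) (hV : ∀ c : kk, algebraMap kk LL c ∈ V)
    (N : ℕ) (hN : N ≠ 0) : ∀ e : ℕ, Odd e →
    V.valuation (sig (N * e) 1 DDk) ≤ max (V.valuation (sig N 1 DDk)) 1 := by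
  intro e
  induction e using Nat.strong_induction_on with
  | _ e ih =>
    intro he
    by_cases h1 : e = 1
    · rw [h1, mul_one]
      exact le_max_left _ _
    · have hp : (e.minFac).Prime := Nat.minFac_prime h1
      obtain ⟨e', he'⟩ := e.minFac_dvd
      have hpo : Odd e.minFac := Odd.of_dvd_nat he e.minFac_dvd
      have heo : Odd e' := Odd.of_dvd_nat he ⟨e.minFac, by rw [mul_comm]; exact he'⟩
      have hp2 : e.minFac ≠ 2 := by
        intro h
        rw [h] at hpo
        exact absurd hpo (by decide)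
      generalize e.minFac = p at *
      have hlt : e' < e := by
        rw [he']
        exact lt_mul_of_one_lt_left heo.pos hp.one_lt
      have h2 := ih e' hlt heo
      have hne : N * e' ≠ 0 := Nat.mul_ne_zero hN heo.pos.ne'
      have hnb : Nb p ((N * e', 1) : Vx) ((N * e, 1) : Vx) := by
        refine Or.inl ⟨?_, ?_⟩
        · show N * e = p * (N * e')
          rw [he']
          ring
        · show (1 : kkˣ) = 1 ^ p
          rw [one_pow]
      have h3 := hPNB V hV p ((N * e', 1) : Vx) ((N * e, 1) : Vx) hp hp2 hne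
        (Nat.mul_ne_zero hN he.pos.ne') hnb
      exact h3.trans (max_le h2 (le_max_right _ _))

theorem HCB_down (hPNB : PNB_stmt) (V : ValuationSubring LL) (hV : ∀ c : kk, algebraMap kk LL c ∈ V) :
    ∀ m : ℕ, Odd m → ∀ (E : ℕ) (ζ η : kkˣ), E ≠ 0 → m ∣ E → ζ ^ m = η →
    V.valuation (sig (E / m) ζ DDk) ≤ max (V.valuation (sig E η DDk)) 1 := by
  intro m
  induction m using Nat.strong_induction_on with
  | _ m ih =>
    intro hm E ζ η hE hmE hζ
    by_cases h1 : m = 1
    · rw [h1, pow_one] at hζ
      rw [h1, Nat.div_one, hζ]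
      exact le_max_left _ _
    · have hp : (m.minFac).Prime := Nat.minFac_prime h1
      obtain ⟨m', hm'⟩ := m.minFac_dvd
      have hpo : Odd m.minFac := Odd.of_dvd_nat hm m.minFac_dvd
      have hmo : Odd m' := Odd.of_dvd_nat hm ⟨m.minFac, by rw [mul_comm]; exact hm'⟩
      have hp2 : m.minFac ≠ 2 := by
        intro h
        rw [h] at hpo
        exact absurd hpo (by decide)
      generalize m.minFac = p at *
      have hlt : m' < m := by
        rw [hm']
        exact lt_mul_of_one_lt_left hmo.pos hp.one_lt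
      obtain ⟨k, hk⟩ := hmE
      rw [hm', mul_assoc] at hk
      have hEp : E / p = m' * k := by rw [hk, Nat.mul_div_cancel_left _ hp.pos]
      have hEp0 : E / p ≠ 0 := by
        intro h
        rw [hEp] at h
        rw [hk, h, mul_zero] at hE
        exact hE rfl
      have h2 := ih m' hlt hmo (E / p) ζ (ζ ^ m') hEp0 ⟨k, hEp⟩ rfl
      have hnb : Nb p ((E, η) : Vx) ((E / p, ζ ^ m') : Vx) := by
        refine Or.inr ⟨?_, ?_⟩
        · show E = p * (E / p)
          rw [hEp, hk]
        · show (ζ ^ m') ^ p = η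
          rw [← pow_mul, mul_comm, ← hm', hζ]
      have h3 := hPNB V hV p ((E, η) : Vx) ((E / p, ζ ^ m') : Vx) hp hp2 hE hEp0 hnb
      have h4 : E / m = E / p / m' := by rw [Nat.div_div_eq_div_mul, ← hm']
      rw [h4]
      exact h2.trans (max_le h3 (le_max_right _ _))

theorem HCB (hPNB : PNB_stmt) : HCB_stmt := by
  intro V hV N n m ζ hN hn hnN hmn hζ
  obtain ⟨k, rfl⟩ := hmn
  have hm : Odd m := Odd.of_dvd_nat hn (Dvd.intro _ rfl)
  have hk : Odd k := Odd.of_dvd_nat hn (Dvd.intro_left _ rfl)
  have hmk : m * k / m = k := Nat.mul_div_cancel_left k hm.pos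
  rw [hmk]
  have h1 := HCB_up hPNB V hV N hN k hk
  have h2 := HCB_down hPNB V hV m hm (N * k) ζ 1 (Nat.mul_ne_zero hN hk.pos.ne')
    ((dvd_trans (Dvd.intro _ rfl) hnN).mul_right k) hζ
  exact h2.trans (max_le h1 (le_max_right _ _))

end Pool.Agent.QP
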