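import Pool.Agent.helper19.QP.SpecS

/-!
# Project qp (MP_ebc808_nt), row SGZ: the numbers `m` not prime to 6
-/

set_option autoImplicit false

open Finset

noncomputable section

namespace Pool.Agent.QP

open Pool.Agent.helper7.IG (kk LL sig DDk MM im2 ps Vx Nb Frame)
open Pool.Agent.LQ (FF DD)
open Pool.Agent.EP (KK ww vvx WW JG ac pp IsT)

theorem SGZ_self (x : ZMod 2) : x + x = 0 := CharTwo.add_self_eq_zero x

theorem SGZ_KQ (c : ℕ → ZMod 2) (P m' : ℕ) (h3 : ¬ 3 ∣ P) :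
    KQ c (3 * P) 1 (3 * m') = KQ c P 3 (3 * m') := by
  have hP : 1 ≤ P := by
    rcases Nat.eq_zero_or_pos P with rfl | h
    · exact absurd (dvd_zero 3) h3
    · exact h
  unfold KQ
  refine Finset.sum_nbij' (fun x => (3 * x.1, x.2 / 3)) (fun x => (x.1 / 3, 3 * x.2)) ?_ ?_ ?_ ?_ ?_
  · rintro ⟨α, β⟩ hx
    rw [mem_filter, mem_product, mem_Icc, mem_Icc] at hx ⊢
    obtain ⟨⟨⟨h1, h2⟩, h4, h5⟩, h6⟩ := hx
    simp only at h1 h2 h4 h5 h6 ⊢
    have h7 : 3 * P * α = 3 * (P * α) := mul_assoc _ _ _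
    have h8 : α ≤ P * α := Nat.le_mul_of_pos_left α hP
    have h9 : P * (3 * α) = 3 * (P * α) := by ring
    rw [h7] at h6
    rw [h9]
    generalize P * α = Q at *
    omega
  · rintro ⟨α, β⟩ hx
    rw [mem_filter, mem_product, mem_Icc, mem_Icc] at hx ⊢
    obtain ⟨⟨⟨h1, h2⟩, h4, h5⟩, h6⟩ := hx
    simp only at h1 h2 h4 h5 h6 ⊢
    have h7 : 3 ∣ P * α := by omega
    have h8 : 3 ∣ α := ((Nat.prime_three.dvd_mul).1 h7).resolve_left h3
    obtain ⟨γ, rfl⟩ := h8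
    rw [Nat.mul_div_cancel_left γ (by norm_num)]
    have h9 : P * (3 * γ) = 3 * (P * γ) := by ring
    have h10 : 3 * P * γ = 3 * (P * γ) := mul_assoc _ _ _
    have h8 : γ ≤ P * γ := Nat.le_mul_of_pos_left γ hP
    rw [h9] at h6
    rw [h10]
    generalize P * γ = Q at *
    omega
  · rintro ⟨α, β⟩ hx
    rw [mem_filter, mem_product, mem_Icc, mem_Icc] at hx
    obtain ⟨⟨⟨h1, h2⟩, h4, h5⟩, h6⟩ := hx
    simp only at h1 h2 h4 h5 h6 ⊢
    have h7 : 3 * P * α = 3 * (P * α) := mul_assoc _ _ _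
    rw [h7] at h6
    refine Prod.ext ?_ ?_
    · show 3 * α / 3 = α
      omega
    · show 3 * (β / 3) = β
      omega
  · rintro ⟨α, β⟩ hx
    rw [mem_filter, mem_product, mem_Icc, mem_Icc] at hx
    obtain ⟨⟨⟨h1, h2⟩, h4, h5⟩, h6⟩ := hx
    simp only at h1 h2 h4 h5 h6 ⊢
    have h7 : 3 ∣ P * α := by omega
    have h8 : 3 ∣ α := ((Nat.prime_three.dvd_mul).1 h7).resolve_left h3
    refine Prod.ext ?_ ?_
    · show 3 * (α / 3) = α
      omega
    · show 3 * β / 3 = β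
      omega
  · rintro ⟨α, β⟩ hx
    rw [mem_filter, mem_product, mem_Icc, mem_Icc] at hx
    obtain ⟨⟨⟨h1, h2⟩, h4, h5⟩, h6⟩ := hx
    simp only at h1 h2 h4 h5 h6 ⊢
    have h7 : 3 * P * α = 3 * (P * α) := mul_assoc _ _ _
    rw [h7] at h6
    obtain ⟨δ, rfl⟩ : 3 ∣ β := by omega
    rw [Nat.mul_div_cancel_left δ (by norm_num)]
    congr 1
    ring

theorem SGZ_PQ (n P m' : ℕ) (hn : 0 < n) (h3 : ¬ 3 ∣ P) :
    PQ n (3 * P) 1 (3 * m') = PQ n P 3 (3 * m') := by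
  unfold PQ
  congr 1
  refine Finset.card_nbij' (fun e => e / 3) (fun f => 3 * f) ?_ ?_ ?_ ?_
  · intro e he
    rw [mem_coe, mem_filter, Nat.mem_divisors] at he ⊢
    obtain ⟨⟨⟨k, hk⟩, -⟩, hc⟩ := he
    have he0 : 0 < e := by
      rcases Nat.eq_zero_or_pos e with rfl | h
      · omega
      · exact h
    have hk0 : 0 < k := by
      rcases Nat.eq_zero_or_pos k with rfl | h
      · omega
      · exact h
    have hne : n / e = k := by rw [hk, Nat.mul_div_cancel_left k he0]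
    rw [hne, mul_assoc 3 P k, one_mul] at hc
    obtain ⟨f, rfl⟩ : 3 ∣ e := by omega
    have hf0 : 0 < f := by omega
    show (3 * f / 3 ∣ n ∧ n ≠ 0) ∧ _
    rw [Nat.mul_div_cancel_left f (by norm_num)]
    have hn' : n = f * (3 * k) := by rw [hk]; ring
    have hnf : n / f = 3 * k := by rw [hn', Nat.mul_div_cancel_left _ hf0]
    refine ⟨⟨⟨3 * k, hn'⟩, hn.ne'⟩, ?_⟩
    show ((P * (n / (3 * f / 3)) : ℕ) : ℤ) - ((3 * (3 * f / 3) : ℕ) : ℤ) = _ ∨
      ((3 * (3 * f / 3) : ℕ) : ℤ) - ((P * (n / (3 * f / 3)) : ℕ) : ℤ) = _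
    rw [Nat.mul_div_cancel_left f (by norm_num), hnf, mul_left_comm P 3 k]
    generalize P * k = Q at *
    omega
  · intro f hf
    rw [mem_coe, mem_filter, Nat.mem_divisors] at hf ⊢
    obtain ⟨⟨⟨k, hk⟩, -⟩, hc⟩ := hf
    have hf0 : 0 < f := by
      rcases Nat.eq_zero_or_pos f with rfl | h
      · omega
      · exact h
    have hnf : n / f = k := by rw [hk, Nat.mul_div_cancel_left k hf0]
    rw [hnf] at hc
    have h7 : 3 ∣ P * k := by
      generalize P * k = Q at *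
      omega
    obtain ⟨j, rfl⟩ : 3 ∣ k := ((Nat.prime_three.dvd_mul).1 h7).resolve_left h3
    have hn' : n = 3 * f * j := by rw [hk]; ring
    have hn3 : n / (3 * f) = j := by rw [hn', Nat.mul_div_cancel_left _ (by omega)]
    rw [mul_left_comm P 3 j] at hc
    refine ⟨⟨⟨j, hn'⟩, hn.ne'⟩, ?_⟩
    show ((3 * P * (n / (3 * f)) : ℕ) : ℤ) - ((1 * (3 * f) : ℕ) : ℤ) = _ ∨
      ((1 * (3 * f) : ℕ) : ℤ) - ((3 * P * (n / (3 * f)) : ℕ) : ℤ) = _
    rw [hn3, mul_assoc 3 P j, one_mul]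
    generalize P * j = Q at *
    omega
  · intro e he
    rw [mem_coe, mem_filter, Nat.mem_divisors] at he
    obtain ⟨-, hc⟩ := he
    rw [mul_assoc 3 P, one_mul] at hc
    show 3 * (e / 3) = e
    generalize P * (n / e) = Q at *
    omega
  · intro f _
    show 3 * f / 3 = f
    omega

theorem SGZ_KQ_even (hJGN : JGN_stmt) (n P lam m : ℕ) (hn : Odd n) (hP : Even P) (hlam : Odd lam)
    (hm : Even m) : KQ (fun L => JG jc n L) P lam m = 0 := by
  unfold KQ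
  refine Finset.sum_eq_zero ?_
  rintro ⟨α, β⟩ hx
  rw [mem_filter] at hx
  have h6 := hx.2
  simp only at h6 ⊢
  have h1 : Even (P * α) := hP.mul_right α
  have h2 : Even (lam * β) := by
    rw [← h6, Nat.even_add] at hm
    exact hm.1 h1
  have h3 : Even β := by
    rcases Nat.even_mul.1 h2 with h | h
    · exact absurd h (Nat.not_even_iff_odd.2 hlam)
    · exact h
  refine hJGN.2.2 n _ hn ?_
  exact_mod_cast h3.mul_left α

theorem SGZ_PQ_even (n P lam m : ℕ) (hn : Odd n) (hP : Even P) (hlam : Odd lam) (hm : Even m) :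
    PQ n P lam m = 0 := by
  unfold PQ
  have h : (n.divisors.filter fun e => ((P * (n / e) : ℕ) : ℤ) - ((lam * e : ℕ) : ℤ) = m ∨
      ((lam * e : ℕ) : ℤ) - ((P * (n / e) : ℕ) : ℤ) = m) = ∅ := by
    rw [Finset.filter_eq_empty_iff]
    intro e he hc
    have he1 : Odd e := Odd.of_dvd_nat hn (Nat.dvd_of_mem_divisors he)
    have h1 : Even (P * (n / e)) := hP.mul_right _
    have h2 : Odd (lam * e) := hlam.mul he1
    obtain ⟨x, hx⟩ := h1
    obtain ⟨y, hy⟩ := h2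
    obtain ⟨w, hw⟩ := hm
    rw [hx, hy, hw] at hc
    omega
  rw [h, Finset.card_empty, Nat.cast_zero]

theorem SGZ (hJGN : JGN_stmt) : SGZ_stmt := by
  intro a n m hn hm hcop
  have hP : Even (2 * 2 ^ a) := even_two_mul _
  have h6 : 6 * 2 ^ a = 3 * (2 * 2 ^ a) := by ring
  by_cases h2 : Even m
  · rw [SGZ_KQ_even hJGN n (6 * 2 ^ a) 1 m hn (by rw [h6]; exact hP.mul_left 3) odd_one h2,
      SGZ_KQ_even hJGN n (2 * 2 ^ a) 3 m hn hP (by decide) h2,
      SGZ_PQ_even n (6 * 2 ^ a) 1 m hn (by rw [h6]; exact hP.mul_left 3) odd_one h2,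
      SGZ_PQ_even n (2 * 2 ^ a) 3 m hn hP (by decide) h2]
    simp
  · have h3 : 3 ∣ m := by
      by_contra h
      refine hcop ?_
      have e1 : Nat.Coprime m 2 := (Nat.coprime_two_right).2 (Nat.not_even_iff_odd.1 h2)
      have e2 : Nat.Coprime m 3 := (Nat.Prime.coprime_iff_not_dvd Nat.prime_three).2 h |>.symm
      exact Nat.Coprime.mul_right e1 e2
    obtain ⟨m', rfl⟩ := h3
    have h3P : ¬ 3 ∣ 2 * 2 ^ a := by
      rw [← pow_succ']
      intro h
      have := Nat.Prime.dvd_of_dvd_pow Nat.prime_three h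
      omega
    rw [h6, SGZ_KQ _ _ m' h3P, SGZ_PQ n _ m' hn.pos h3P, SGZ_self, zero_add, SGZ_self]

end Pool.Agent.QP
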