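import Pool.Agent.helper19.QP.SpecS
import Pool.Agent.helper24.LQ.ME3
import Pool.Agent.helper62.LQ.TGR
import Pool.Agent.helper72.LQ.EXP
import Pool.Agent.helper78.LQ.MEN
import Pool.Agent.helper33.EP.FRO

/-!
# Project qp (MP_ebc808_nt), row TJT: the Hecke operator `T_3` on the powers of `1/D`
-/

set_option autoImplicit false

open Finset

noncomputable section

namespace Pool.Agent.QP

open Pool.Agent.helper7.IG (kk LL sig DDk MM im2 ps Vx Nb Frame)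
open Pool.Agent.LQ (FF DD)
open Pool.Agent.EP (KK ww vvx WW JG ac pp IsT)

theorem TJT_self (f : KK) : f + f = 0 := Pool.Agent.LQ.MEN_self f

theorem TJT_two : (2 : KK) = 0 := by
  have h := TJT_self 1
  rw [one_add_one_eq_two] at h
  exact h

/-- the substitution `q ↦ q ^ 3` -/
def TJT_z : KK →+* KK := Pool.Agent.LQ.MEN_ex 3 (by norm_num)

theorem TJT_z_coeff (f : KK) (M : ℤ) : (TJT_z f).coeff M = if (3 : ℤ) ∣ M then f.coeff (M / 3) else 0 :=
  Pool.Agent.LQ.MEN_ex_coeff 3 (by norm_num) f M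

theorem TJT_supp (f : KK) : BddBelow (Function.support fun M : ℤ => f.coeff (3 * M)) := by
  refine ⟨min f.order 0, fun M hM => ?_⟩
  rw [Function.mem_support] at hM
  have h := HahnSeries.order_le_of_coeff_ne_zero hM
  omega

/-- the coefficients at the multiples of 3 -/
def TJT_U (f : KK) : KK := HahnSeries.ofSuppBddBelow (fun M : ℤ => f.coeff (3 * M)) (TJT_supp f)

theorem TJT_U_coeff (f : KK) (M : ℤ) : (TJT_U f).coeff M = f.coeff (3 * M) := by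
  rw [TJT_U, HahnSeries.coeff_ofSuppBddBelow]

theorem TJT_U_add (f g : KK) : TJT_U (f + g) = TJT_U f + TJT_U g := by
  ext M
  rw [HahnSeries.coeff_add, TJT_U_coeff, TJT_U_coeff, TJT_U_coeff, HahnSeries.coeff_add]

theorem TJT_U_mul (f g : KK) : TJT_U (f * TJT_z g) = TJT_U f * g := by
  have h := Pool.Agent.LQ.MEN_mul (l := 3) (by norm_num) (G := f) (g := TJT_U f)
    (fun M => TJT_U_coeff f M) g
  ext M
  rw [TJT_U_coeff, h M]
  rfl

/-- the operator `T_3` -/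
def TJT_T (f : KK) : KK := TJT_U f + TJT_z f

theorem TJT_isT (f : KK) : IsT 3 f (TJT_T f) := by
  intro M
  rw [TJT_T, HahnSeries.coeff_add, TJT_U_coeff, TJT_z_coeff]
  rfl

theorem TJT_one : TJT_T 1 = 0 := by
  have h : TJT_U 1 = 1 := by
    ext M
    rw [TJT_U_coeff, HahnSeries.coeff_one, HahnSeries.coeff_one]
    by_cases hM : M = 0
    · rw [if_pos hM, if_pos (by omega)]
    · rw [if_neg hM, if_neg (by omega)]
  rw [TJT_T, h, map_one]
  exact TJT_self 1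

theorem TJT_sq_coeff (f : KK) (N : ℤ) : (f ^ 2).coeff N = if (2 : ℤ) ∣ N then f.coeff (N / 2) else 0 := by
  have h := Pool.Agent.EP.FRO 1 f N
  rw [pow_one, pow_one] at h
  exact h

theorem TJT_sq (f : KK) : TJT_T (f ^ 2) = TJT_T f ^ 2 := by
  have h : TJT_U (f ^ 2) = TJT_U f ^ 2 := by
    ext M
    rw [TJT_U_coeff, TJT_sq_coeff, TJT_sq_coeff, TJT_U_coeff]
    by_cases hM : (2 : ℤ) ∣ M
    · rw [if_pos hM, if_pos (by omega)]
      congr 1
      omega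
    · rw [if_neg hM, if_neg (by omega)]
  rw [TJT_T, TJT_T, h, map_pow]
  linear_combination (-(TJT_U f * TJT_z f)) * TJT_two

theorem TJT_ofp (f : FF) (M : ℤ) : (HahnSeries.ofPowerSeries ℤ (ZMod 2) f).coeff M =
    if 0 ≤ M then PowerSeries.coeff M.toNat f else 0 := by
  rw [PowerSeries.coeff_coe]
  by_cases h0 : 0 ≤ M
  · rw [if_neg (not_lt.2 h0), if_pos h0]
    congr 2
    omega
  · rw [if_pos (not_le.1 h0), if_neg h0]

theorem TJT_ex (f : FF) : HahnSeries.ofPowerSeries ℤ (ZMod 2) (Pool.Agent.LQ.ex 3 f) =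
    TJT_z (HahnSeries.ofPowerSeries ℤ (ZMod 2) f) := by
  ext M
  rw [TJT_ofp, TJT_z_coeff, TJT_ofp]
  unfold Pool.Agent.LQ.ex
  rw [PowerSeries.coeff_mk]
  by_cases h0 : 0 ≤ M
  · rw [if_pos h0]
    by_cases h3 : (3 : ℤ) ∣ M
    · rw [if_pos h3, if_pos (by omega), if_pos (by omega)]
      congr 2
      omega
    · rw [if_neg h3, if_neg (by omega)]
  · rw [if_neg h0, if_neg (by omega : ¬ 0 ≤ M / 3)]
    split_ifs <;> rfl

/-- `U` kills the series without exponents divisible by 3 -/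
theorem TJT_kill (i : ℕ) (hi : ¬ 3 ∣ i) :
    TJT_U (HahnSeries.ofPowerSeries ℤ (ZMod 2) (Pool.Agent.LQ.tt ^ i)) = 0 := by
  ext M
  rw [TJT_U_coeff, TJT_ofp, HahnSeries.coeff_zero]
  by_cases h0 : 0 ≤ 3 * M
  · rw [if_pos h0]
    by_contra hne
    have h := (Pool.Agent.LQ.TGR Pool.Agent.LQ.EXP).2.2.2.1 i (3 * M).toNat hne
    omega
  · rw [if_neg h0]

/-- the data -/
theorem TJT_data (hJJ0 : JJ0_stmt) : ∃ D u : KK, jj * D = 1 ∧ D ^ 4 + TJT_z D ^ 4 = D * TJT_z D ∧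
    D = u + TJT_z (TJT_z D) ∧ u ^ 3 = TJT_z D ∧ TJT_U u = 0 ∧ TJT_U (u ^ 2) = 0 := by
  have hEXP := Pool.Agent.LQ.EXP
  have hTGR := Pool.Agent.LQ.TGR hEXP
  have hME3 := Pool.Agent.LQ.ME3 hTGR hEXP
  refine ⟨HahnSeries.ofPowerSeries ℤ (ZMod 2) DD, HahnSeries.ofPowerSeries ℤ (ZMod 2) Pool.Agent.LQ.tt,
    hJJ0.2.2.2.2.2, ?_, ?_, ?_, ?_, ?_⟩
  · rw [← TJT_ex, ← map_pow, ← map_pow, ← map_mul, ← map_add, hME3.2]
  · have h9 : Pool.Agent.LQ.ex 9 DD = Pool.Agent.LQ.ex 3 (Pool.Agent.LQ.ex 3 DD) :=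
      (hEXP.2.1 3 3 DD (by norm_num) (by norm_num)).symm
    rw [← TJT_ex, ← TJT_ex, ← h9, ← map_add, ← hME3.1]
  · rw [← TJT_ex, ← map_pow, hTGR.2.2.1]
  · have h := TJT_kill 1 (by norm_num)
    rwa [pow_one] at h
  · have h := TJT_kill 2 (by norm_num)
    rwa [map_pow] at h

theorem TJT_rel (hJJ0 : JJ0_stmt) : jj ^ 4 + TJT_z jj ^ 4 = jj ^ 3 * TJT_z jj ^ 3 := by
  obtain ⟨D, u, h1, h2, -⟩ := TJT_data hJJ0
  have h1' : TJT_z jj * TJT_z D = 1 := by rw [← map_mul, h1, map_one]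
  set X := jj
  set Z := TJT_z jj
  set E := TJT_z D
  have hX : X ≠ 0 := left_ne_zero_of_mul_eq_one h1
  have hZ : Z ≠ 0 := left_ne_zero_of_mul_eq_one h1'
  have hD : D = X⁻¹ := eq_inv_of_mul_eq_one_right h1
  have hE : E = Z⁻¹ := eq_inv_of_mul_eq_one_right h1'
  rw [hD, hE] at h2
  field_simp at h2
  linear_combination h2

/-- the recursion -/
theorem TJT_rec (hJJ0 : JJ0_stmt) (i : ℕ) :
    TJT_T (jj ^ (i + 4)) = jj ^ 3 * TJT_T (jj ^ (i + 3)) + jj ^ 4 * TJT_T (jj ^ i) := by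
  have hrel := TJT_rel hJJ0
  have h1 : jj ^ (i + 4) = jj ^ (i + 3) * TJT_z (jj ^ 3) + jj ^ i * TJT_z (jj ^ 4) := by
    rw [map_pow, map_pow, pow_add jj i 4, pow_add jj i 3]
    linear_combination jj ^ i * hrel - jj ^ i * TJT_z jj ^ 4 * TJT_two
  have h2 : TJT_U (jj ^ (i + 4)) = TJT_U (jj ^ (i + 3)) * jj ^ 3 + TJT_U (jj ^ i) * jj ^ 4 := by
    rw [h1, TJT_U_add, TJT_U_mul, TJT_U_mul]
  rw [TJT_T, TJT_T, TJT_T, h2, map_pow, map_pow, map_pow, pow_add (TJT_z jj) i 4, pow_add (TJT_z jj) i 3]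
  linear_combination TJT_z jj ^ i * hrel - TJT_z jj ^ i * jj ^ 4 * TJT_two

theorem TJT_T1 (hJJ0 : JJ0_stmt) : TJT_T jj = jj ^ 3 := by
  obtain ⟨D, u, h1, h2, h3, h4, h5, h6⟩ := TJT_data hJJ0
  have h1' : TJT_z jj * TJT_z D = 1 := by rw [← map_mul, h1, map_one]
  -- the decomposition of `1/D`
  have hdec : jj * TJT_z (D + TJT_z D ^ 3) =
      u ^ 2 + u * TJT_z (TJT_z D) + 1 * TJT_z (TJT_z D ^ 2) := by
    rw [map_add, map_pow, map_pow]
    set r := TJT_z (TJT_z D) with hr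
    have e1 : TJT_z D + r ^ 3 = D * (u ^ 2 + u * r + r ^ 2) := by
      rw [← h4]
      linear_combination (-(u ^ 2 + u * r + r ^ 2)) * h3 - (u ^ 2 * r + u * r ^ 2) * TJT_two
    rw [e1]
    linear_combination (u ^ 2 + u * r + r ^ 2) * h1
  have hU := congrArg TJT_U hdec
  have hU1 : TJT_U 1 = 1 := by
    have h := TJT_one
    rw [TJT_T, map_one] at h
    linear_combination h - TJT_two
  rw [TJT_U_mul, TJT_U_add, TJT_U_add, TJT_U_mul, TJT_U_mul, h5, h6, hU1] at hU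
  have hX : jj ≠ 0 := left_ne_zero_of_mul_eq_one h1
  have hZ : TJT_z jj ≠ 0 := left_ne_zero_of_mul_eq_one h1'
  have hD0 : D ≠ 0 := right_ne_zero_of_mul_eq_one h1
  have hE0 : TJT_z D ≠ 0 := right_ne_zero_of_mul_eq_one h1'
  have hXD : jj = D⁻¹ := eq_inv_of_mul_eq_one_left h1
  have hZE : TJT_z jj = (TJT_z D)⁻¹ := eq_inv_of_mul_eq_one_left h1'
  rw [TJT_T]
  set V := TJT_U jj
  rw [hZE, hXD]
  set E := TJT_z D
  -- `V (D + E^3) = E^2`, `D^4 + E^4 = D E`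
  have e2 : V * D ^ 4 = E ^ 3 := by
    linear_combination E * hU + V * h2 - V * E ^ 4 * TJT_two
  have e3 : (V + E⁻¹) * (D ^ 4 * E) = (D⁻¹) ^ 3 * (D ^ 4 * E) := by
    have e4 : (V + E⁻¹) * (D ^ 4 * E) = E * (V * D ^ 4) + D ^ 4 := by
      field_simp
    have e5 : (D⁻¹) ^ 3 * (D ^ 4 * E) = D * E := by
      field_simp
    rw [e4, e5, e2]
    linear_combination h2
  exact mul_right_cancel₀ (mul_ne_zero (pow_ne_zero 4 hD0) hE0) e3

theorem TJT_mulJS {f : KK} (hf : f ∈ JS) (k : ℕ) : jj ^ k * f ∈ JS := by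
  unfold JS at hf ⊢
  induction hf using Submodule.span_induction with
  | mem x hx =>
    obtain ⟨i, hi, rfl⟩ := hx
    rw [← pow_add]
    exact Submodule.subset_span ⟨k + i, by omega, rfl⟩
  | zero => rw [mul_zero]; exact Submodule.zero_mem _
  | add x y _ _ hx hy => rw [mul_add]; exact Submodule.add_mem _ hx hy
  | smul a x _ hx => rw [mul_smul_comm]; exact Submodule.smul_mem _ _ hx

theorem TJT_powJS {k : ℕ} (hk : 1 ≤ k) : jj ^ k ∈ JS := Submodule.subset_span ⟨k, hk, rfl⟩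

theorem TJT_all (hJJ0 : JJ0_stmt) (i : ℕ) : TJT_T (jj ^ i) ∈ JS := by
  have h1 := TJT_T1 hJJ0
  have h2 : TJT_T (jj ^ 2) = jj ^ 6 := by
    rw [TJT_sq, h1]
    ring
  have h4 : TJT_T (jj ^ 4) = jj ^ 12 := by
    have h : (jj : KK) ^ 4 = (jj ^ 2) ^ 2 := by ring
    rw [h, TJT_sq, h2]
    ring
  have hX : jj ≠ 0 := left_ne_zero_of_mul_eq_one hJJ0.2.2.2.2.2
  have h3 : TJT_T (jj ^ 3) = jj ^ 9 := by
    have h := TJT_rec hJJ0 0
    rw [zero_add, zero_add, pow_zero, TJT_one, mul_zero, add_zero, h4] at h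
    have h' : jj ^ 3 * TJT_T (jj ^ 3) = jj ^ 3 * jj ^ 9 := by
      rw [← h]
      ring
    exact mul_left_cancel₀ (pow_ne_zero 3 hX) h'
  induction i using Nat.strong_induction_on with
  | _ i ih =>
    by_cases hi : i < 4
    · have : i = 0 ∨ i = 1 ∨ i = 2 ∨ i = 3 := by omega
      rcases this with rfl | rfl | rfl | rfl
      · rw [pow_zero, TJT_one]
        exact Submodule.zero_mem _
      · rw [pow_one, h1]
        exact TJT_powJS (by norm_num)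
      · rw [h2]
        exact TJT_powJS (by norm_num)
      · rw [h3]
        exact TJT_powJS (by norm_num)
    · obtain ⟨j, rfl⟩ : ∃ j, i = j + 4 := ⟨i - 4, by omega⟩
      rw [TJT_rec hJJ0 j]
      exact Submodule.add_mem _ (TJT_mulJS (ih (j + 3) (by omega)) 3) (TJT_mulJS (ih j (by omega)) 4)

theorem TJT (hJJ0 : JJ0_stmt) : TJT_stmt := fun i _ => ⟨TJT_T (jj ^ i), TJT_all hJJ0 i, TJT_isT _⟩

end Pool.Agent.QP
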